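import Pool.Agent.H25.SigmaD

set_option autoImplicit false

namespace Pool.Agent.Results.MP_339821_gt.SigmaNo

open Pool.Agent.H25.DSepDefs Pool.Agent.H25.SigmaDefs

/-- If `κ ^ ω = κ`, the Frechet d-separable Tychonoff space `Σ(2^κ)` is not D-separable. -/
theorem result (I : Type) [Infinite I] (hI : Cardinal.mk I ^ Cardinal.aleph0 = Cardinal.mk I) :
    T35Space (Sig I) ∧ FrechetUrysohnSpace (Sig I) ∧ SmallDSep (Sig I) ∧ ¬ BigDSep (Sig I) :=
  ⟨inferInstance, Pool.Agent.H25.SigmaD.frechet, Pool.Agent.H25.SigmaD.dsep,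
    Pool.Agent.H25.SigmaD.not_D hI⟩

end Pool.Agent.Results.MP_339821_gt.SigmaNo
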