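import Pool.Agent.H25.SigmaD

set_option autoImplicit false

namespace Pool.Agent.Results.MP_339821_gt.SigmaYes

open Pool.Agent.H25.DSepDefs Pool.Agent.H25.SigmaDefs

/-- If `κ` has countable cofinality, `Σ(2^κ)` is D-separable. -/
theorem result (I : Type) (hI : (Cardinal.mk I).ord.cof = Cardinal.aleph0) : BigDSep (Sig I) :=
  Pool.Agent.H25.SigmaD.D_of_cof hI

end Pool.Agent.Results.MP_339821_gt.SigmaYes
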